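import Pool.Agent.H3.MFS.Defs
import Pool.Agent.H13.MF.Final
import Pool.Agent.H51.MF.Main

/-! The slim definitions agree with those of `Pool.Agent.H13.MF`: the module variety. -/

set_option autoImplicit false
set_option linter.unusedSectionVars false
set_option linter.style.haveILetI false

universe u v w

namespace Pool.Agent.H3.MFS

open Pool.Agent.H13

variable {K : Type v} [Field K] {A : Type u} [Ring A] [Algebra K A] {n : ℕ} {e : Fin n → A}
  {d : Fin n → ℕ}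

/-! ### Points -/

/-- the representation of a point -/
def toFn (ρ : MF.ModVar K A e d) : A → Matrix (Idx d) (Idx d) K := fun a => ρ.1 a

theorem toFn_inj {ρ σ : MF.ModVar K A e d} (h : toFn ρ = toFn σ) : ρ = σ :=
  Subtype.ext (AlgHom.ext fun a => congrFun h a)

theorem isRep_toFn (ρ : MF.ModVar K A e d) : IsRep e (toFn ρ) := by
  refine ⟨fun a b s t => ?_, fun c a s t => ?_, fun a b s t => ?_, fun s t => ⟨?_, ?_⟩,
    fun i s t => ⟨?_, ?_⟩⟩
  · show ρ.1 (a + b) s t = _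
    rw [map_add]; rfl
  · show ρ.1 (c • a) s t = _
    rw [map_smul]; rfl
  · show ρ.1 (a * b) s t = _
    rw [map_mul]; rfl
  · rintro rfl
    show ρ.1 1 s s = 1
    rw [map_one, Matrix.one_apply_eq]
  · intro h
    show ρ.1 1 s t = 0
    rw [map_one, Matrix.one_apply_ne h]
  · rintro ⟨rfl, rfl⟩
    show ρ.1 (e s.1) s s = 1
    rw [ρ.2, Matrix.diagonal_apply_eq, if_pos rfl]
  · intro h
    show ρ.1 (e i) s t = 0
    rw [ρ.2]
    by_cases hst : s = t
    · subst hst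
      rw [Matrix.diagonal_apply_eq, if_neg fun h' => h ⟨rfl, h'⟩]
    · rw [Matrix.diagonal_apply_ne _ hst]

/-- the point of a representation -/
def ofRep (ρ : A → Matrix (Idx d) (Idx d) K) (h : IsRep e ρ) : MF.ModVar K A e d :=
  ⟨AlgHom.ofLinearMap
    { toFun := ρ
      map_add' := fun a b => Matrix.ext fun s t => h.1 a b s t
      map_smul' := fun c a => Matrix.ext fun s t => h.2.1 c a s t }
    (Matrix.ext fun s t => by
      show ρ 1 s t = _
      by_cases hst : s = t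
      · rw [(h.2.2.2.1 s t).1 hst, hst, Matrix.one_apply_eq]
      · rw [(h.2.2.2.1 s t).2 hst, Matrix.one_apply_ne hst])
    (fun a b => Matrix.ext fun s t => h.2.2.1 a b s t),
  fun i => Matrix.ext fun s t => by
    show ρ (e i) s t = _
    by_cases hst : s = t
    · subst hst
      rw [Matrix.diagonal_apply_eq]
      by_cases hi : s.1 = i
      · rw [(h.2.2.2.2 i s s).1 ⟨rfl, hi⟩, if_pos hi]
      · rw [(h.2.2.2.2 i s s).2 fun h' => hi h'.2, if_neg hi]
    · rw [(h.2.2.2.2 i s t).2 fun h' => hst h'.1, Matrix.diagonal_apply_ne _ hst]⟩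

theorem toFn_ofRep (ρ : A → Matrix (Idx d) (Idx d) K) (h : IsRep e ρ) :
    toFn (ofRep ρ h) = ρ := rfl

/-! ### Polynomial functions -/

theorem mem_regular (F : MF.ModVar K A e d → K) :
    F ∈ MF.regular K A e d ↔
      ∃ P : MvPolynomial (A × Idx d × Idx d) K, ∀ ρ, F ρ = val P (toFn ρ) := by
  let g : A × Idx d × Idx d → (MF.ModVar K A e d → K) := fun v ρ => ρ.1 v.1 v.2.1 v.2.2
  have h1 : {F : MF.ModVar K A e d → K | ∃ (a : A) (s t : MF.Idx d), F = fun ρ => ρ.1 a s t} =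
      Set.range g := by
    ext F
    constructor
    · rintro ⟨a, s, t, rfl⟩
      exact ⟨(a, s, t), rfl⟩
    · rintro ⟨⟨a, s, t⟩, rfl⟩
      exact ⟨a, s, t, rfl⟩
  have h2 : ∀ (P : MvPolynomial (A × Idx d × Idx d) K) (ρ : MF.ModVar K A e d),
      (MvPolynomial.aeval g P) ρ = val P (toFn ρ) := by
    intro P ρ
    have := MvPolynomial.comp_aeval_apply g
      (Pi.evalAlgHom K (fun _ : MF.ModVar K A e d => K) ρ) P
    show (Pi.evalAlgHom K (fun _ : MF.ModVar K A e d => K) ρ) (MvPolynomial.aeval g P) = _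
    rw [this]
    unfold val
    rw [← MvPolynomial.coe_aeval_eq_eval]
    rfl
  rw [MF.regular, h1, Algebra.adjoin_range_eq_range_aeval]
  constructor
  · rintro ⟨P, hP⟩
    exact ⟨P, fun ρ => by rw [← h2, ← hP]; rfl⟩
  · rintro ⟨P, hP⟩
    exact ⟨P, funext fun ρ => by rw [hP, ← h2]; rfl⟩

theorem val_mem (P : MvPolynomial (A × Idx d × Idx d) K) :
    (fun ρ : MF.ModVar K A e d => val P (toFn ρ)) ∈ MF.regular K A e d :=
  (mem_regular _).2 ⟨P, fun _ => rfl⟩

theorem val_mul (P Q : MvPolynomial (A × Idx d × Idx d) K) (ρ : A → Matrix (Idx d) (Idx d) K) :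
    val (P * Q) ρ = val P ρ * val Q ρ := map_mul _ _ _

theorem val_one (ρ : A → Matrix (Idx d) (Idx d) K) :
    val (1 : MvPolynomial (A × Idx d × Idx d) K) ρ = 1 := map_one _

/-! ### Closed sets -/

theorem isClosed_iff (Z : Set (MF.ModVar K A e d)) :
    IsClosed Z ↔ ∃ S : Set (MvPolynomial (A × Idx d × Idx d) K),
      Z = {ρ | ∀ P ∈ S, val P (toFn ρ) = 0} := by
  constructor
  · intro hZ
    have key : ∀ U : Set (MF.ModVar K A e d),
        TopologicalSpace.GenerateOpen {U | ∃ F ∈ MF.regular K A e d, U = {ρ | F ρ ≠ 0}} U →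
        ∃ S : Set (MvPolynomial (A × Idx d × Idx d) K),
          ∀ ρ, ρ ∈ U ↔ ¬ ∀ P ∈ S, val P (toFn ρ) = 0 := by
      intro U hU
      induction hU with
      | basic s hs =>
        obtain ⟨F, hF, rfl⟩ := hs
        obtain ⟨P, hP⟩ := (mem_regular F).1 hF
        refine ⟨{P}, fun ρ => ?_⟩
        show F ρ ≠ 0 ↔ _
        rw [hP]
        simp
      | univ =>
        refine ⟨{1}, fun ρ => ⟨fun _ h => ?_, fun _ => trivial⟩⟩
        have := h 1 rfl
        rw [val_one] at this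
        exact one_ne_zero this
      | inter s t _ _ ihs iht =>
        obtain ⟨S, hS⟩ := ihs
        obtain ⟨T, hT⟩ := iht
        refine ⟨{R | ∃ P ∈ S, ∃ Q ∈ T, R = P * Q}, fun ρ => ?_⟩
        rw [Set.mem_inter_iff, hS, hT]
        constructor
        · rintro ⟨h1, h2⟩ h3
          apply h1
          intro P hP
          by_contra h4
          apply h2
          intro Q hQ
          have := h3 (P * Q) ⟨P, hP, Q, hQ, rfl⟩
          rw [val_mul] at this
          exact (mul_eq_zero.1 this).resolve_left h4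
        · intro h
          constructor
          · intro h1
            apply h
            rintro R ⟨P, hP, Q, hQ, rfl⟩
            rw [val_mul, h1 P hP, zero_mul]
          · intro h1
            apply h
            rintro R ⟨P, hP, Q, hQ, rfl⟩
            rw [val_mul, h1 Q hQ, mul_zero]
      | sUnion T _ ih =>
        choose! f hf using ih
        refine ⟨{P | ∃ s ∈ T, P ∈ f s}, fun ρ => ?_⟩
        rw [Set.mem_sUnion]
        constructor
        · rintro ⟨s, hs, hρ⟩ h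
          exact (hf s hs ρ).1 hρ fun P hP => h P ⟨s, hs, hP⟩
        · intro h
          by_contra h1
          apply h
          rintro P ⟨s, hs, hP⟩
          by_contra h2
          exact h1 ⟨s, hs, (hf s hs ρ).2 fun h3 => h2 (h3 P hP)⟩
    obtain ⟨S, hS⟩ := key Zᶜ hZ.isOpen_compl
    refine ⟨S, Set.ext fun ρ => ?_⟩
    have := hS ρ
    rw [Set.mem_compl_iff, not_iff_not] at this
    exact this
  · rintro ⟨S, rfl⟩
    have : {ρ : MF.ModVar K A e d | ∀ P ∈ S, val P (toFn ρ) = 0} =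
        ⋂ P ∈ S, {ρ : MF.ModVar K A e d | val P (toFn ρ) = 0} := by
      ext ρ
      simp
    rw [this]
    refine isClosed_biInter fun P _ => ?_
    rw [← isOpen_compl_iff]
    exact MF.isOpen_ne (val_mem P)

theorem isClosedSet_iff (Z : Set (A → Matrix (Idx d) (Idx d) K)) :
    IsClosedSet e Z ↔ ∃ Z' : Set (MF.ModVar K A e d), IsClosed Z' ∧ Z = toFn '' Z' := by
  constructor
  · rintro ⟨S, rfl⟩
    refine ⟨{ρ | ∀ P ∈ S, val P (toFn ρ) = 0}, (isClosed_iff _).2 ⟨S, rfl⟩, ?_⟩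
    ext ρ
    constructor
    · rintro ⟨h1, h2⟩
      exact ⟨ofRep ρ h1, h2, rfl⟩
    · rintro ⟨σ, h, rfl⟩
      exact ⟨isRep_toFn σ, h⟩
  · rintro ⟨Z', hZ', rfl⟩
    obtain ⟨S, rfl⟩ := (isClosed_iff _).1 hZ'
    refine ⟨S, ?_⟩
    ext ρ
    constructor
    · rintro ⟨σ, h, rfl⟩
      exact ⟨isRep_toFn σ, h⟩
    · rintro ⟨h1, h2⟩
      exact ⟨ofRep ρ h1, h2, rfl⟩

theorem image_sub {Z Z' : Set (MF.ModVar K A e d)} : toFn '' Z ⊆ toFn '' Z' ↔ Z ⊆ Z' := by
  constructor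
  · intro h ρ hρ
    obtain ⟨σ, hσ, hσρ⟩ := h ⟨ρ, hρ, rfl⟩
    rw [← toFn_inj hσρ]
    exact hσ
  · exact Set.image_mono

theorem isIrreducibleSet_iff (Z : Set (A → Matrix (Idx d) (Idx d) K)) :
    IsIrreducibleSet e Z ↔ ∃ Z' : Set (MF.ModVar K A e d), IsClosed Z' ∧ IsIrreducible Z' ∧
      Z = toFn '' Z' := by
  constructor
  · rintro ⟨h1, h2, h3⟩
    obtain ⟨Z', hZ', rfl⟩ := (isClosedSet_iff Z).1 h1
    refine ⟨Z', hZ', ⟨Set.image_nonempty.1 h2, ?_⟩, rfl⟩
    rw [isPreirreducible_iff_isClosed_union_isClosed]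
    intro z₁ z₂ hz₁ hz₂ hz
    have := h3 (toFn '' z₁) (toFn '' z₂) ((isClosedSet_iff _).2 ⟨z₁, hz₁, rfl⟩)
      ((isClosedSet_iff _).2 ⟨z₂, hz₂, rfl⟩) (by rw [← Set.image_union]; exact Set.image_mono hz)
    rwa [image_sub, image_sub] at this
  · rintro ⟨Z', hZ', hirr, rfl⟩
    refine ⟨(isClosedSet_iff _).2 ⟨Z', hZ', rfl⟩, hirr.1.image _, ?_⟩
    intro Z₁ Z₂ hZ₁ hZ₂ hZ
    obtain ⟨z₁, hz₁, rfl⟩ := (isClosedSet_iff Z₁).1 hZ₁
    obtain ⟨z₂, hz₂, rfl⟩ := (isClosedSet_iff Z₂).1 hZ₂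
    rw [image_sub, image_sub]
    rw [← Set.image_union, image_sub] at hZ
    exact isPreirreducible_iff_isClosed_union_isClosed.1 hirr.2 z₁ z₂ hz₁ hz₂ hZ

theorem isComponent_iff (C : Set (A → Matrix (Idx d) (Idx d) K)) :
    IsComponent e C ↔ ∃ C' ∈ irreducibleComponents (MF.ModVar K A e d), C = toFn '' C' := by
  constructor
  · rintro ⟨h1, h2⟩
    obtain ⟨C', hC', hirr, rfl⟩ := (isIrreducibleSet_iff C).1 h1
    refine ⟨C', ⟨hirr, fun Z hZ hCZ => ?_⟩, rfl⟩
    have h3 := h2 (toFn '' closure Z)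
      ((isIrreducibleSet_iff _).2 ⟨closure Z, isClosed_closure, hZ.closure, rfl⟩)
      (Set.image_mono ((show C' ⊆ Z from hCZ).trans subset_closure))
    rw [image_sub] at h3
    exact subset_closure.trans h3
  · rintro ⟨C', hC', rfl⟩
    have hcl : IsClosed C' := isClosed_of_mem_irreducibleComponents C' hC'
    refine ⟨(isIrreducibleSet_iff _).2 ⟨C', hcl, hC'.1, rfl⟩, fun Z hZ hCZ => ?_⟩
    obtain ⟨Z', hZ', hirr, rfl⟩ := (isIrreducibleSet_iff Z).1 hZ
    rw [image_sub] at hCZ ⊢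
    exact hC'.2 hirr hCZ

/-! ### The action -/

/-- block diagonal matrices -/
def bd (g : ∀ i, Matrix (Fin (d i)) (Fin (d i)) K) : Matrix (Idx d) (Idx d) K :=
  Matrix.blockDiagonal' g

theorem bd_mul (g h : ∀ i, Matrix (Fin (d i)) (Fin (d i)) K) :
    bd g * bd h = bd fun i => g i * h i := (Matrix.blockDiagonal'_mul g h).symm

theorem bd_one : bd (fun i => (1 : Matrix (Fin (d i)) (Fin (d i)) K)) = 1 :=
  Matrix.blockDiagonal'_one

theorem bd_inv (g h : ∀ i, Matrix (Fin (d i)) (Fin (d i)) K) (hgh : ∀ i, g i * h i = 1) :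
    bd g * bd h = 1 ∧ bd h * bd g = 1 := by
  constructor
  · rw [bd_mul, funext hgh]; exact bd_one
  · rw [bd_mul, funext fun i => mul_eq_one_comm.1 (hgh i)]; exact bd_one

theorem conj_eq (g h : ∀ i, Matrix (Fin (d i)) (Fin (d i)) K)
    (ρ : A → Matrix (Idx d) (Idx d) K) (a : A) : conj g h ρ a = bd g * ρ a * bd h := by
  have hr : ∀ (M : Matrix (Idx d) (Idx d) K) (s t : Idx d),
      (M * bd h) s t = ∑ y, M s ⟨t.1, y⟩ * h t.1 y t.2 := by
    intro M s t
    rw [Matrix.mul_apply, Fintype.sum_sigma, Finset.sum_eq_single t.1]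
    · refine Finset.sum_congr rfl fun y _ => ?_
      obtain ⟨t1, t2⟩ := t
      rw [bd, Matrix.blockDiagonal'_apply_eq]
    · intro i _ hi
      refine Finset.sum_eq_zero fun y _ => ?_
      obtain ⟨t1, t2⟩ := t
      rw [bd, Matrix.blockDiagonal'_apply_ne _ _ _ hi, mul_zero]
    · intro h; exact absurd (Finset.mem_univ _) h
  have hl : ∀ (M : Matrix (Idx d) (Idx d) K) (s t : Idx d),
      (bd g * M) s t = ∑ x, g s.1 s.2 x * M ⟨s.1, x⟩ t := by
    intro M s t
    rw [Matrix.mul_apply, Fintype.sum_sigma, Finset.sum_eq_single s.1]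
    · refine Finset.sum_congr rfl fun y _ => ?_
      obtain ⟨s1, s2⟩ := s
      rw [bd, Matrix.blockDiagonal'_apply_eq]
    · intro i _ hi
      refine Finset.sum_eq_zero fun y _ => ?_
      obtain ⟨s1, s2⟩ := s
      rw [bd, Matrix.blockDiagonal'_apply_ne _ _ _ (Ne.symm hi), zero_mul]
    · intro h; exact absurd (Finset.mem_univ _) h
  ext s t
  rw [hr]
  simp only [hl]
  show (∑ x, ∑ y, g s.1 s.2 x * ρ a ⟨s.1, x⟩ ⟨t.1, y⟩ * h t.1 y t.2) = _
  rw [Finset.sum_comm]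
  refine Finset.sum_congr rfl fun y _ => ?_
  rw [Finset.sum_mul]

/-- the group element -/
def toGL (g h : ∀ i, Matrix (Fin (d i)) (Fin (d i)) K) (hgh : ∀ i, g i * h i = 1) :
    ∀ i : Fin n, Matrix.GeneralLinearGroup (Fin (d i)) K :=
  fun i => ⟨g i, h i, hgh i, mul_eq_one_comm.1 (hgh i)⟩

theorem act_eq (g h : ∀ i, Matrix (Fin (d i)) (Fin (d i)) K) (hgh : ∀ i, g i * h i = 1)
    (ρ : MF.ModVar K A e d) : toFn (MF.act (toGL g h hgh) ρ) = conj g h (toFn ρ) := by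
  funext a
  rw [conj_eq]
  rfl

theorem act_eq' (G : ∀ i : Fin n, Matrix.GeneralLinearGroup (Fin (d i)) K)
    (ρ : MF.ModVar K A e d) :
    ∃ g h : ∀ i, Matrix (Fin (d i)) (Fin (d i)) K, (∀ i, g i * h i = 1) ∧
      (∀ i, g i = (G i : Matrix (Fin (d i)) (Fin (d i)) K)) ∧
      toFn (MF.act G ρ) = conj g h (toFn ρ) := by
  refine ⟨fun i => (G i : Matrix (Fin (d i)) (Fin (d i)) K),
    fun i => ((G i)⁻¹ : Matrix.GeneralLinearGroup (Fin (d i)) K), fun i => ?_, fun i => rfl, ?_⟩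
  · rw [← Units.val_mul, mul_inv_cancel]; rfl
  · funext a
    rw [conj_eq]
    rfl

theorem semiInv_iff (C : Set (MF.ModVar K A e d)) (θ : Fin n → ℤ)
    (P : MvPolynomial (A × Idx d × Idx d) K) :
    IsSemiInvariant (toFn '' C) θ P ↔ MF.SemiInv C θ (fun ρ => val P (toFn ρ)) := by
  constructor
  · intro h
    refine ⟨val_mem P, fun G ρ hρ => ?_⟩
    obtain ⟨g, g', h1, h2, h3⟩ := act_eq' G ρ
    show val P (toFn (MF.act G ρ)) = _
    rw [h3, h g g' h1 _ ⟨ρ, hρ, rfl⟩]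
    simp only [h2]
  · rintro ⟨-, h⟩ g g' hgg _ ⟨ρ, hρ, rfl⟩
    have h1 : val P (toFn (MF.act (toGL g g' hgg) ρ)) =
        (∏ i, (g i).det ^ θ i) * val P (toFn ρ) := h (toGL g g' hgg) ρ hρ
    rw [act_eq] at h1
    exact h1

theorem isMF_iff : IsMF K e ↔ MF.IsMF K A e := by
  constructor
  · intro h d C hC θ F G hF hG
    obtain ⟨P, hP⟩ := (mem_regular F).1 hF.1
    obtain ⟨Q, hQ⟩ := (mem_regular G).1 hG.1
    obtain rfl : F = fun ρ => val P (toFn ρ) := funext hP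
    obtain rfl : G = fun ρ => val Q (toFn ρ) := funext hQ
    obtain ⟨a, b, hab, h'⟩ := h d (toFn '' C) θ P Q ((isComponent_iff _).2 ⟨C, hC, rfl⟩)
      ((semiInv_iff C θ P).2 hF) ((semiInv_iff C θ Q).2 hG)
    exact ⟨a, b, hab, fun ρ hρ => h' _ ⟨ρ, hρ, rfl⟩⟩
  · intro h d C θ P Q hC hP hQ
    obtain ⟨C', hC', rfl⟩ := (isComponent_iff C).1 hC
    obtain ⟨a, b, hab, h'⟩ := h d C' hC' θ _ _ ((semiInv_iff C' θ P).1 hP)
      ((semiInv_iff C' θ Q).1 hQ)
    refine ⟨a, b, hab, ?_⟩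
    rintro _ ⟨ρ, hρ, rfl⟩
    exact h' ρ hρ

end Pool.Agent.H3.MFS
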