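import Pool.Agent.H3.MFS.Conv

/-! The slim definitions agree with those of `Pool.Agent.H13.MF`: bricks. -/

set_option autoImplicit false
set_option linter.unusedSectionVars false
set_option linter.style.haveILetI false

universe u v w

namespace Pool.Agent.H3.MFS

open Pool.Agent.H13 Module

variable {K : Type v} [Field K] {A : Type u} [Ring A] [Algebra K A] {n : ℕ} {e : Fin n → A}
  {d : Fin n → ℕ}

/-- a matrix commuting with the representation gives a homomorphism -/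
def homOf (ρ σ : MF.ModVar K A e d) (M : Matrix (Idx d) (Idx d) K)
    (h : ∀ a, M * toFn ρ a = toFn σ a * M) : MF.Pt ρ →ₗ[A] MF.Pt σ where
  toFun x := M.mulVec x
  map_add' x y := Matrix.mulVec_add M x y
  map_smul' a x := by
    show M.mulVec ((toFn ρ a).mulVec x) = (toFn σ a).mulVec (M.mulVec x)
    rw [Matrix.mulVec_mulVec, Matrix.mulVec_mulVec, h]

theorem matOf (ρ : MF.ModVar K A e d) (f : MF.Pt ρ →ₗ[A] MF.Pt ρ) :
    ∃ M : Matrix (Idx d) (Idx d) K, (∀ x : Idx d → K, M.mulVec x = f x) ∧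
      ∀ a, M * toFn ρ a = toFn ρ a * M := by
  classical
  let f' : (Idx d → K) →ₗ[K] (Idx d → K) := f.restrictScalars K
  have h1 : ∀ x, (LinearMap.toMatrix' f').mulVec x = f' x :=
    fun x => LinearMap.toMatrix'_mulVec f' x
  refine ⟨LinearMap.toMatrix' f', h1, fun a => Matrix.mulVec_injective (funext fun x => ?_)⟩
  rw [← Matrix.mulVec_mulVec, ← Matrix.mulVec_mulVec, h1, h1]
  exact f.map_smul a x

theorem isBrick_iff (ρ : MF.ModVar K A e d) :
    IsBrick (toFn ρ) ↔ Nontrivial (MF.Pt ρ) ∧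
      ∀ φ : MF.Pt ρ →ₗ[A] MF.Pt ρ, φ ≠ 0 → Function.Bijective φ := by
  classical
  constructor
  · rintro ⟨h1, h2⟩
    haveI : Nonempty (Idx d) := h1
    refine ⟨(inferInstance : Nontrivial (Idx d → K)), fun f hf => ?_⟩
    obtain ⟨M, hM, hc⟩ := matOf ρ f
    have h3 : IsUnit M := h2 M (fun h0 => hf (LinearMap.ext fun x => by
      show f x = (0 : Idx d → K)
      rw [← hM, h0, Matrix.zero_mulVec])) hc
    have h4 : (f : (Idx d → K) → (Idx d → K)) = M.mulVec := funext fun x => (hM x).symm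
    have h5 : Function.Bijective M.mulVec :=
      ⟨Matrix.mulVec_injective_iff_isUnit.2 h3, Matrix.mulVec_surjective_iff_isUnit.2 h3⟩
    rw [← h4] at h5
    exact h5
  · rintro ⟨h1, h2⟩
    refine ⟨?_, fun M hM hc => ?_⟩
    · by_contra h
      haveI : IsEmpty (Idx d) := not_nonempty_iff.1 h
      have : Subsingleton (Idx d → K) := inferInstance
      exact not_subsingleton_iff_nontrivial.2 h1 this
    · have h3 := h2 (homOf ρ ρ M hc) (fun h0 => hM (Matrix.mulVec_injective (funext fun x => by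
        have := LinearMap.congr_fun h0 x
        rw [Matrix.zero_mulVec]
        exact this)))
      exact Matrix.mulVec_injective_iff_isUnit.1 h3.1

theorem dimv (ρ : MF.ModVar K A e d) (i : Fin n) :
    finrank K (LinearMap.range (MF.eK K (e i) (MF.Pt ρ))) = d i := by
  have h1 := MF.finrank_VU ρ (⊤ : Submodule A (MF.Pt ρ)) i
  have h2 : MF.VU ρ (⊤ : Submodule A (MF.Pt ρ)) i = ⊤ := by
    ext y
    rw [MF.mem_VU]
    exact ⟨fun _ => trivial, fun _ => trivial⟩
  rw [h2, finrank_top, finrank_fin_fun] at h1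
  haveI : FiniteDimensional K (⊤ : Submodule A (MF.Pt ρ)) :=
    Module.Finite.of_injective ((⊤ : Submodule A (MF.Pt ρ)).subtype.restrictScalars K)
      (Submodule.injective_subtype _)
  rw [h1]
  exact (MF.rk_congr (K := K) (e i)
    (Submodule.topEquiv : (⊤ : Submodule A (MF.Pt ρ)) ≃ₗ[A] MF.Pt ρ)).symm

theorem brick_congr {X Y : Type*} [AddCommGroup X] [Module A X] [AddCommGroup Y] [Module A Y]
    (ε : X ≃ₗ[A] Y) (h : ∀ φ : X →ₗ[A] X, φ ≠ 0 → Function.Bijective φ) :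
    ∀ φ : Y →ₗ[A] Y, φ ≠ 0 → Function.Bijective φ := by
  intro φ hφ
  have h1 := h (ε.symm.toLinearMap ∘ₗ φ ∘ₗ ε.toLinearMap) (fun h0 => hφ (by
    ext y
    have h2 := LinearMap.congr_fun h0 (ε.symm y)
    simpa using h2))
  have h2 : (φ : Y → Y) = ε ∘ (ε.symm.toLinearMap ∘ₗ φ ∘ₗ ε.toLinearMap) ∘ ε.symm := by
    funext y
    simp
  rw [h2]
  exact ε.bijective.comp (h1.comp ε.symm.bijective)

theorem finitelyManyBricks_of_isMF [Infinite K] [FiniteDimensional K A]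
    (he : CompleteOrthogonalIdempotents e) (hloc : ∀ i, IsLocalRing (he.idem i).Corner)
    (h : MF.IsMF K A e) : FinitelyManyBricks K e := by
  classical
  intro d
  obtain ⟨L, hL⟩ := MF.finite_of_isMF (Pool.Agent.H51.MF.main_all K A).1
      (Pool.Agent.H51.MF.main_all K A).2.1 he hloc h d
  let pick : ModuleCat.{u} A → (A → Matrix (Idx d) (Idx d) K) := fun Z =>
    if h : ∃ ρ : MF.ModVar K A e d, Nonempty (MF.Pt ρ ≃ₗ[A] Z) then toFn h.choose else 0
  refine ⟨pick '' {Z | Z ∈ L}, (List.finite_toSet L).image pick, fun ρ hρ hb => ?_⟩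
  have hρ' : toFn (ofRep ρ hρ) = ρ := toFn_ofRep ρ hρ
  rw [← hρ'] at hb
  obtain ⟨h1, h2⟩ := (isBrick_iff _).1 hb
  let X : MF.BM.{u, v, v} K A := { C := MF.Pt (ofRep ρ hρ) }
  obtain ⟨Y, ⟨ε⟩⟩ := MF.exists_small X
  haveI : Nontrivial X := h1
  obtain ⟨Z, hZ, ⟨ε'⟩⟩ := hL Y ε.symm.toEquiv.nontrivial (brick_congr ε h2) (fun i => by
    have h3 := MF.rk_congr (K := K) (e i) ε
    have h4 := dimv (ofRep ρ hρ) i
    exact h3.symm.trans h4)
  have hex : ∃ ρ : MF.ModVar K A e d, Nonempty (MF.Pt ρ ≃ₗ[A] Z) := ⟨ofRep ρ hρ, ⟨ε ≪≫ₗ ε'⟩⟩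
  have hp : pick Z = toFn hex.choose := dif_pos hex
  obtain ⟨ε''⟩ := hex.choose_spec
  refine ⟨pick Z, ⟨Z, hZ, rfl⟩, ?_⟩
  obtain ⟨G, hG⟩ := MF.exists_act hex.choose (ofRep ρ hρ) (ε'' ≪≫ₗ (ε ≪≫ₗ ε').symm)
  obtain ⟨g, h', h3, -, h4⟩ := act_eq' G hex.choose
  refine ⟨g, h', h3, ?_⟩
  rw [hp, ← h4, hG, hρ']

/-- points in one orbit are isomorphic -/
theorem iso_of_conj (ρ ρ' : MF.ModVar K A e d) (σ : A → Matrix (Idx d) (Idx d) K)
    {g h g' h' : ∀ i, Matrix (Fin (d i)) (Fin (d i)) K} (hgh : ∀ i, g i * h i = 1)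
    (hgh' : ∀ i, g' i * h' i = 1) (h1 : toFn ρ = conj g h σ) (h2 : toFn ρ' = conj g' h' σ) :
    Nonempty (MF.Pt ρ ≃ₗ[A] MF.Pt ρ') := by
  obtain ⟨a1, a2⟩ := bd_inv g h hgh
  obtain ⟨b1, b2⟩ := bd_inv g' h' hgh'
  have hc : ∀ a, (bd g' * bd h) * toFn ρ a = toFn ρ' a * (bd g' * bd h) := by
    intro a
    rw [h1, h2, conj_eq, conj_eq]
    calc bd g' * bd h * (bd g * σ a * bd h) = bd g' * (bd h * bd g) * σ a * bd h := by
          simp only [Matrix.mul_assoc]
      _ = bd g' * σ a * bd h := by rw [a2, Matrix.mul_one]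
      _ = bd g' * σ a * (bd h' * bd g') * bd h := by rw [b2, Matrix.mul_one]
      _ = bd g' * σ a * bd h' * (bd g' * bd h) := by simp only [Matrix.mul_assoc]
  have hc' : ∀ a, (bd g * bd h') * toFn ρ' a = toFn ρ a * (bd g * bd h') := by
    intro a
    rw [h1, h2, conj_eq, conj_eq]
    calc bd g * bd h' * (bd g' * σ a * bd h') = bd g * (bd h' * bd g') * σ a * bd h' := by
          simp only [Matrix.mul_assoc]
      _ = bd g * σ a * bd h' := by rw [b2, Matrix.mul_one]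
      _ = bd g * σ a * (bd h * bd g) * bd h' := by rw [a2, Matrix.mul_one]
      _ = bd g * σ a * bd h * (bd g * bd h') := by simp only [Matrix.mul_assoc]
  refine ⟨LinearEquiv.ofLinear (homOf ρ ρ' _ hc) (homOf ρ' ρ _ hc') ?_ ?_⟩
  · refine LinearMap.ext fun x => ?_
    show (bd g' * bd h).mulVec ((bd g * bd h').mulVec x) = x
    rw [Matrix.mulVec_mulVec]
    have : bd g' * bd h * (bd g * bd h') = 1 := by
      calc bd g' * bd h * (bd g * bd h') = bd g' * (bd h * bd g) * bd h' := by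
            simp only [Matrix.mul_assoc]
        _ = 1 := by rw [a2, Matrix.mul_one, b1]
    rw [this, Matrix.one_mulVec]
  · refine LinearMap.ext fun x => ?_
    show (bd g * bd h').mulVec ((bd g' * bd h).mulVec x) = x
    rw [Matrix.mulVec_mulVec]
    have : bd g * bd h' * (bd g' * bd h) = 1 := by
      calc bd g * bd h' * (bd g' * bd h) = bd g * (bd h' * bd g') * bd h := by
            simp only [Matrix.mul_assoc]
        _ = 1 := by rw [b2, Matrix.mul_one, a1]
    rw [this, Matrix.one_mulVec]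

theorem isMF_of_finitelyManyBricks [Infinite K] [FiniteDimensional K A]
    (he : CompleteOrthogonalIdempotents e) (h : FinitelyManyBricks K e) : MF.IsMF K A e := by
  classical
  refine MF.isMF_of_classes he.idem fun d => ?_
  obtain ⟨L, hfin, hL⟩ := h d
  obtain ⟨N, f, -, hf⟩ := hfin.fin_param
  refine ⟨N, fun k X => ∃ ρ : MF.ModVar K A e d, Nonempty (X ≃ₗ[A] MF.Pt ρ) ∧
    ∃ g h : ∀ i, Matrix (Fin (d i)) (Fin (d i)) K, (∀ i, g i * h i = 1) ∧
      toFn ρ = conj g h (f k), ?_, ?_⟩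
  · rintro k X Y ⟨ρ, ⟨ε⟩, g, h, hgh, hρ⟩ ⟨ρ', ⟨ε'⟩, g', h', hgh', hρ'⟩
    obtain ⟨η⟩ := iso_of_conj ρ ρ' (f k) hgh hgh' hρ hρ'
    exact ⟨(ε ≪≫ₗ η) ≪≫ₗ ε'.symm⟩
  · intro X hX hbr hdv
    haveI : Module.Finite A X := Module.Finite.of_restrictScalars_finite K A X
    obtain ⟨d', ρ, ⟨ε, hε⟩, -⟩ := MF.exists_realizes (K := K) he X
    let η : X ≃ₗ[A] MF.Pt ρ :=
      { toFun := fun x => ε x
        map_add' := fun x y => ε.map_add x y
        map_smul' := fun a x => hε a x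
        invFun := fun y => ε.symm y
        left_inv := fun x => ε.symm_apply_apply x
        right_inv := fun y => ε.apply_symm_apply y }
    have hd : d' = d := by
      funext i
      rw [← hdv i]
      have h3 := MF.rk_congr (K := K) (e i) η
      exact (h3.trans (dimv ρ i)).symm
    subst hd
    haveI : Nontrivial X := hX
    have hb : IsBrick (toFn ρ) :=
      (isBrick_iff ρ).2 ⟨η.symm.toEquiv.nontrivial, brick_congr η hbr⟩
    obtain ⟨σ, hσ, g, h', hgh, hρ⟩ := hL _ (isRep_toFn ρ) hb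
    rw [← hf] at hσ
    obtain ⟨k, rfl⟩ := hσ
    exact ⟨k, ρ, ⟨η⟩, g, h', hgh, hρ⟩

theorem schur [IsAlgClosed K] (ρ : A → Matrix (Idx d) (Idx d) K) (hne : Nonempty (Idx d)) :
    IsBrick ρ ↔ ∀ φ : Matrix (Idx d) (Idx d) K, (∀ a, φ * ρ a = ρ a * φ) →
      ∃ c : K, φ = c • 1 := by
  classical
  constructor
  · rintro ⟨-, h⟩ φ hφ
    obtain ⟨c, hc⟩ := Module.End.exists_eigenvalue (Matrix.toLin' φ)
    obtain ⟨x, hx⟩ := hc.exists_hasEigenvector
    refine ⟨c, ?_⟩
    by_contra hne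
    have h1 : IsUnit (φ - c • (1 : Matrix (Idx d) (Idx d) K)) := by
      refine h _ (sub_ne_zero.2 hne) fun a => ?_
      rw [Matrix.sub_mul, Matrix.mul_sub, hφ, Matrix.smul_mul, Matrix.mul_smul, Matrix.one_mul,
        Matrix.mul_one]
    have h2 := Matrix.mulVec_injective_iff_isUnit.2 h1
    apply hx.2
    apply h2
    rw [Matrix.mulVec_zero, Matrix.sub_mulVec, Matrix.smul_mulVec, Matrix.one_mulVec]
    have h3 : φ.mulVec x = c • x := by
      rw [← Matrix.toLin'_apply]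
      exact hx.apply_eq_smul
    rw [h3, sub_self]
  · intro h
    refine ⟨hne, fun φ hφ hc => ?_⟩
    obtain ⟨c, rfl⟩ := h φ hc
    have hc0 : c ≠ 0 := by
      rintro rfl
      exact hφ (zero_smul _ _)
    rw [← Algebra.algebraMap_eq_smul_one]
    exact (IsUnit.mk0 c hc0).map (algebraMap K (Matrix (Idx d) (Idx d) K))

theorem main (K : Type v) [Field K] [Infinite K] (A : Type u) [Ring A] [Algebra K A]
    [FiniteDimensional K A] (n : ℕ) (e : Fin n → A) (he : CompleteOrthogonalIdempotents e)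
    (hloc : ∀ i, IsLocalRing (he.idem i).Corner) :
    (IsMF K e ↔ FinitelyManyBricks K e) ∧
    (IsAlgClosed K → ∀ (d : Fin n → ℕ) (ρ : A → Matrix (Idx d) (Idx d) K), IsRep e ρ →
      Nonempty (Idx d) →
      (IsBrick ρ ↔ ∀ φ : Matrix (Idx d) (Idx d) K, (∀ a, φ * ρ a = ρ a * φ) →
        ∃ c : K, φ = c • 1)) := by
  refine ⟨⟨fun h => finitelyManyBricks_of_isMF he hloc (isMF_iff.1 h),
    fun h => isMF_iff.2 (isMF_of_finitelyManyBricks he h)⟩, ?_⟩
  intro hK d ρ _ hne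
  exact schur ρ hne

end Pool.Agent.H3.MFS
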