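import Mathlib

/-!
# The multiplicity-free conjecture (MP_5504b7_al): definitions

Points of the module variety `mod (A, d)`, polynomial functions, irreducible components,
semi-invariants, orbits, bricks.
-/

set_option autoImplicit false

universe u v

namespace Pool.Agent.H3.MFS

/-- The index set of the standard basis of `⊕ᵢ K ^ (d i)`. -/
abbrev Idx {n : ℕ} (d : Fin n → ℕ) : Type := Σ i : Fin n, Fin (d i)

variable {K : Type v} [Field K] {A : Type u} [Ring A] [Algebra K A] {n : ℕ} {d : Fin n → ℕ}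

/-- `ρ` is a point of `mod (A, d)`: a representation of `A` on `⊕ᵢ K ^ (d i)`, `ρ a s t` being the
entry of the matrix of `a` at the place `(s, t)`, in which `e i` is the projection onto
`K ^ (d i)`. -/
def IsRep (e : Fin n → A) (ρ : A → Matrix (Idx d) (Idx d) K) : Prop :=
  (∀ a b s t, ρ (a + b) s t = ρ a s t + ρ b s t) ∧
  (∀ (c : K) a s t, ρ (c • a) s t = c * ρ a s t) ∧
  (∀ a b s t, ρ (a * b) s t = ∑ r, ρ a s r * ρ b r t) ∧
  (∀ s t, (s = t → ρ 1 s t = 1) ∧ (s ≠ t → ρ 1 s t = 0)) ∧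
  ∀ i s t, (s = t ∧ s.1 = i → ρ (e i) s t = 1) ∧ (¬ (s = t ∧ s.1 = i) → ρ (e i) s t = 0)

/-- The value at `ρ` of the polynomial `P` in the matrix entries. -/
noncomputable def val (P : MvPolynomial (A × Idx d × Idx d) K) (ρ : A → Matrix (Idx d) (Idx d) K) : K :=
  MvPolynomial.eval (fun v => ρ v.1 v.2.1 v.2.2) P

/-- The Zariski closed subsets of `mod (A, d)`. -/
def IsClosedSet (e : Fin n → A) (Z : Set (A → Matrix (Idx d) (Idx d) K)) : Prop :=
  ∃ S : Set (MvPolynomial (A × Idx d × Idx d) K), Z = {ρ | IsRep e ρ ∧ ∀ P ∈ S, val P ρ = 0}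

/-- The irreducible closed subsets. -/
def IsIrreducibleSet (e : Fin n → A) (Z : Set (A → Matrix (Idx d) (Idx d) K)) : Prop :=
  IsClosedSet e Z ∧ Z.Nonempty ∧ ∀ Z₁ Z₂, IsClosedSet e Z₁ → IsClosedSet e Z₂ → Z ⊆ Z₁ ∪ Z₂ →
    Z ⊆ Z₁ ∨ Z ⊆ Z₂

/-- The irreducible components of `mod (A, d)`. -/
def IsComponent (e : Fin n → A) (C : Set (A → Matrix (Idx d) (Idx d) K)) : Prop :=
  IsIrreducibleSet e C ∧ ∀ Z, IsIrreducibleSet e Z → C ⊆ Z → Z ⊆ C

/-- The point `g ρ g⁻¹`, for `g = (g i)` in `GL (d)` with the inverse `h = (h i)`. -/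
def conj (g h : ∀ i, Matrix (Fin (d i)) (Fin (d i)) K) (ρ : A → Matrix (Idx d) (Idx d) K) :
    A → Matrix (Idx d) (Idx d) K :=
  fun a s t => ∑ x, ∑ y, g s.1 s.2 x * ρ a ⟨s.1, x⟩ ⟨t.1, y⟩ * h t.1 y t.2

/-- The function `P` is on `C` a semi-invariant of weight `θ`. -/
def IsSemiInvariant (C : Set (A → Matrix (Idx d) (Idx d) K)) (θ : Fin n → ℤ)
    (P : MvPolynomial (A × Idx d × Idx d) K) : Prop :=
  ∀ g h : ∀ i, Matrix (Fin (d i)) (Fin (d i)) K, (∀ i, g i * h i = 1) → ∀ ρ ∈ C,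
    val P (conj g h ρ) = (∏ i, (g i).det ^ θ i) * val P ρ

/-- `ρ` is a brick: it is not zero, and every nonzero endomorphism `φ` is invertible. -/
def IsBrick (ρ : A → Matrix (Idx d) (Idx d) K) : Prop :=
  Nonempty (Idx d) ∧ ∀ φ : Matrix (Idx d) (Idx d) K, φ ≠ 0 → (∀ a, φ * ρ a = ρ a * φ) →
    IsUnit φ

variable (K)

/-- `A` is multiplicity-free: on every irreducible component of every `mod (A, d)` any two
semi-invariants of the same weight are linearly dependent. -/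
def IsMF (e : Fin n → A) : Prop :=
  ∀ (d : Fin n → ℕ) (C : Set (A → Matrix (Idx d) (Idx d) K)) (θ : Fin n → ℤ)
    (P Q : MvPolynomial (A × Idx d × Idx d) K),
    IsComponent e C → IsSemiInvariant C θ P → IsSemiInvariant C θ Q →
    ∃ a b : K, (a ≠ 0 ∨ b ≠ 0) ∧ ∀ ρ ∈ C, a * val P ρ + b * val Q ρ = 0

/-- For every `d` the bricks in `mod (A, d)` are in finitely many orbits of `GL (d)`. -/
def FinitelyManyBricks (e : Fin n → A) : Prop :=
  ∀ d : Fin n → ℕ, ∃ L : Set (A → Matrix (Idx d) (Idx d) K), L.Finite ∧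
    ∀ ρ, IsRep e ρ → IsBrick ρ → ∃ σ ∈ L, ∃ g h : ∀ i, Matrix (Fin (d i)) (Fin (d i)) K,
      (∀ i, g i * h i = 1) ∧ ρ = conj g h σ

end Pool.Agent.H3.MFS
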